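import Pool.Agent.J4.H5.AS.PrimePower
import Pool.Agent.J4.H6.SI.Fin
import Pool.Agent.J4.H6.FR.Fin

/-!
# From characters of Fermat varieties to products of Artin-Schreier curves, with arbitrary generators
-/

set_option linter.unusedSectionVars false
set_option autoImplicit false

namespace Pool.Agent.J4.H28.PS

open Finset Pool.Agent.H916R2 Pool.Agent.H916T Pool.Agent.H916U Pool.Agent.H916Z Pool.Agent.H916Q
open Pool.Agent.J4.H5.FP Pool.Agent.J4.H5.AS

/-- **From Fermat varieties to Artin-Schreier curves, arbitrary generators.** -/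
theorem gen_of {p m D : ℕ} (hp : p.Prime) (hm : 0 < m) (hpm : p.Coprime m)
    (B : ∀ M : ℕ, Multiset (ZMod M) → Prop)
    {s : Multiset (ZMod m)} (h0 : (0 : ZMod m) ∉ s) (hev : Even (Multiset.card s))
    (hne : s ≠ 0) (hs : Rel0 p s)
    (H : ∀ M : ℕ, 0 < M → p.Coprime M → m ∣ M → (∀ l : ℕ, l.Prime → l ∣ M → l ∣ m) →
      ∀ s' : Multiset (ZMod M), IsTate p M s' → s' ≠ 0 →
        ∃ N : ℕ, 0 < N ∧ p.Coprime N ∧ D ∣ N * M ∧ ∀ M' : ℕ, N * M = M' →
          H916T.Generated M' (B M') (s'.map (iota N : ZMod M → ZMod M'))) :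
    ∃ K : ℕ, 0 < K ∧ p.Coprime K ∧ D ∣ K * m ∧ ∃ t : Multiset (ZMod (K * m)),
      (0 : ZMod (K * m)) ∉ t ∧
      H916T.Generated (K * m) (B (K * m)) (s.map (iota K : ZMod m → ZMod (K * m)) +
        (t + t.map fun b => -((p : ZMod (K * m)) * b))) := by
  have hz : NeZero m := ⟨hm.ne'⟩
  obtain ⟨K, hK, hpK, h4, t, ht0, hT⟩ := fix_sum hp hm hpm h0 hev hs
  have hM : 0 < K * m := Nat.mul_pos hK hm
  have hzM : NeZero (K * m) := ⟨hM.ne'⟩
  have hpM : p.Coprime (K * m) := Nat.Coprime.mul_right hpK hpm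
  have hne' : s.map (iota K : ZMod m → ZMod (K * m)) +
      (t + t.map fun b => -((p : ZMod (K * m)) * b)) ≠ 0 := by
    intro h
    have h5 := congrArg Multiset.card h
    rw [Multiset.card_add, Multiset.card_map, Multiset.card_zero] at h5
    have h6 : Multiset.card s = 0 := by omega
    exact hne (Multiset.card_eq_zero.mp h6)
  obtain ⟨N, hN, hpN, hDN, hgen⟩ := H (K * m) hM hpM (Dvd.intro_left K rfl) (fun l hl h => by
    rcases hl.dvd_mul.mp h with h | h
    · exact h4 l hl h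
    · exact h) _ hT hne'
  have hNK : N * (K * m) = (N * K) * m := (mul_assoc N K m).symm
  have hg := hgen ((N * K) * m) hNK
  refine ⟨N * K, Nat.mul_pos hN hK, Nat.Coprime.mul_right hpN hpK, by rw [← hNK]; exact hDN,
    t.map (iota N : ZMod (K * m) → ZMod (N * K * m)), ?_, ?_⟩
  · intro h
    obtain ⟨x, hx, hx0⟩ := Multiset.mem_map.mp h
    have hzL : NeZero (N * K * m) := ⟨(Nat.mul_pos (Nat.mul_pos hN hK) hm).ne'⟩
    rw [iota_eq_zero hNK hx0] at hx
    exact ht0 hx
  · rw [Multiset.map_add, Multiset.map_add, Multiset.map_map, Multiset.map_map] at hg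
    rw [Multiset.map_map]
    have e1 : s.map ((iota N : ZMod (K * m) → ZMod (N * K * m)) ∘ iota K) =
        s.map (iota (N * K) : ZMod m → ZMod (N * K * m)) :=
      Multiset.map_congr rfl fun a _ => iota_comp hNK a
    have e2 : t.map ((iota N : ZMod (K * m) → ZMod (N * K * m)) ∘
        fun b => -((p : ZMod (K * m)) * b)) =
        t.map ((fun b => -((p : ZMod (N * K * m)) * b)) ∘
          (iota N : ZMod (K * m) → ZMod (N * K * m))) := by
      refine Multiset.map_congr rfl fun b _ => ?_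
      simp only [Function.comp_apply]
      rw [iota_neg hNK, iota_natMul hNK]
    rw [e1, e2] at hg
    exact hg

section lines

variable {k : Type} [Field k] [Fintype k] {p m : ℕ}

/-- The exponents of the lines of Tate type. -/
theorem rel_lines [Fact p.Prime] [CharP k p] [NeZero m] (hmk : m ∣ Fintype.card k - 1)
    (θ : MulChar k ℂ) (hθ : orderOf θ = m) {i : ℕ} (hi : 0 < i)
    (x : Fin (2 * i) → {a : ZMod m // a ≠ 0} × {ψ : AddChar k ℂ // ψ ≠ 1}) (hx : TL θ x) :
    p.Coprime m ∧ (0 : ZMod m) ∉ (univ.val.map fun j => (x j).1.1) ∧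
      Even (Multiset.card (univ.val.map fun j => (x j).1.1)) ∧
      (univ.val.map fun j => (x j).1.1) ≠ 0 ∧ Rel0 p (univ.val.map fun j => (x j).1.1) := by
  obtain ⟨e, he, h⟩ := hx
  obtain ⟨hpm, hrel⟩ := rel_of_tuple hmk θ hθ i (fun j => (x j).1.1) (fun j => (x j).1.2)
    (fun j => (x j).2.1) (fun j => (x j).2.2) e he hi h
  have hcard : Multiset.card (univ.val.map fun j => (x j).1.1) = 2 * i := by
    rw [Multiset.card_map]
    simp
  refine ⟨hpm, ?_, ?_, ?_, hrel⟩
  · intro h0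
    obtain ⟨j, -, hj⟩ := Multiset.mem_map.mp h0
    exact (x j).1.2 hj
  · rw [hcard]; exact ⟨i, by omega⟩
  · intro h0
    rw [h0, Multiset.card_zero] at hcard
    omega

/-- **Index dividing four.** -/
theorem small_index [Fact p.Prime] [CharP k p] [NeZero m] (hmk : m ∣ Fintype.card k - 1)
    (θ : MulChar k ℂ) (hθ : orderOf θ = m) {i : ℕ} (hi : 0 < i) {q : ℕ} (hq : q.Prime)
    (hq2 : q ≠ 2) (hidx : (q - 1) ∣ 4 * orderOf (p : ZMod q)) (hdeg : J4.H6.SI.Deg p q m)
    (x : Fin (2 * i) → {a : ZMod m // a ≠ 0} × {ψ : AddChar k ℂ // ψ ≠ 1}) (hx : TL θ x) :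
    Gen2 p m (univ.val.map fun j => (x j).1.1) := by
  have hp : p.Prime := Fact.out
  have hm : 0 < m := Nat.pos_of_ne_zero (NeZero.ne m)
  obtain ⟨hpm, h0, hev, hne, hrel⟩ := rel_lines hmk θ hθ hi x hx
  refine gen2_of hp hm hpm h0 hev hne hrel ?_
  intro M hM hpM _ hpr s' hs' hne' _
  exact J4.H6.SI.main hp hq hq2 hM hpM hidx (fun r hr hrM => hdeg r hr (hpr r hr hrM)) hs' hne'

open scoped Classical in
/-- **Reduction to finitely many classes.** -/
theorem finite_reduction (md : Prop) (hp : p.Prime) {S : Finset ℕ} (hS : ∀ q ∈ S, q.Prime)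
    (hpS : p ∉ S) :
    ∃ (K : ℕ) (c : ℕ → Multiset (ZMod (2 ^ K * J4.H6.FR.op S))), (2 ∉ S → K = 0) ∧
      (∀ n, IsTate p _ (c n)) ∧
      ∀ (m : ℕ) (_ : 0 < m) (_ : p.Coprime m) (_ : ∀ q : ℕ, q.Prime → q ∣ m → q ∈ S)
        (s : Multiset (ZMod m)), (0 : ZMod m) ∉ s → Even (Multiset.card s) → s ≠ 0 → Rel0 p s →
          ∃ N : ℕ, 0 < N ∧ p.Coprime N ∧ 2 ^ K * J4.H6.FR.op S ∣ N * m ∧
            ∃ t : Multiset (ZMod (N * m)), (0 : ZMod (N * m)) ∉ t ∧
            H916T.Generated (N * m)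
              (fun t => SurfaceTate p (N * m) t ∨
                (∃ q : ℕ, q.Prime ∧ q ∣ N * m ∧ Standard q (N * m) t) ∨
                (md ∧ N214.FT.ModularTate p (N * m) t) ∨
                ∃ n ∈ J4.H6.FR.Uns md p S,
                  t = (c n).map (iota (N * m / (2 ^ K * J4.H6.FR.op S))))
              (s.map (iota N : ZMod m → ZMod (N * m)) +
                (t + t.map fun b => -((p : ZMod (N * m)) * b))) := by
  obtain ⟨K, c, hK, hc, H⟩ := J4.H6.FR.main md hp hS hpS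
  refine ⟨K, c, hK, hc, ?_⟩
  intro m hm hpm hmS s h0 hev hne hrel
  refine gen_of (D := 2 ^ K * J4.H6.FR.op S) hp hm hpm (fun M t => SurfaceTate p M t ∨
                (∃ q : ℕ, q.Prime ∧ q ∣ M ∧ Standard q M t) ∨
                (md ∧ N214.FT.ModularTate p M t) ∨
                ∃ n ∈ J4.H6.FR.Uns md p S,
                  t = (c n).map (iota (M / (2 ^ K * J4.H6.FR.op S)))) h0 hev hne hrel ?_
  intro M hM hpM _ hpr s' hs' hne'
  obtain ⟨N, hN, hpN, hD, hg⟩ := H M hM (fun q hq hqM => hmS q hq (hpr q hq hqM)) s' hs' hne'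
  refine ⟨N, hN, hpN, hD, ?_⟩
  rintro M' rfl
  exact hg

end lines

end Pool.Agent.J4.H28.PS
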