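import Pool.Agent.H916Y.Fams2
import Pool.Agent.J4.H28.PS.Main

/-!
# Parshin's conjecture for products of Artin-Schreier curves: reduction to finitely many classes

Let `k` be the finite field with `q` elements and let `m` divide `q - 1`. The motive `h^1` of the
smooth projective curve `C` with the equation `y ^ q - y = x ^ m` is, with coefficients in a
cyclotomic field, the sum of lines indexed by the pairs of a nontrivial power `θ ^ a` of a
multiplicative character `θ` of order `m` and a nontrivial additive character `ψ` of `k`; the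
Frobenius map of `k` acts on a line by minus the Gauss sum of the pair (Davenport, Hasse, Weil). So
the motive of a product of curves `C` is a sum of Tate twists of tensor products of such lines. By
Soule, Geisser and Kahn the higher rational K-groups of such a tensor product vanish if it is not of
Tate type over any finite field, and also if it is of Tate type and its Tate class is algebraic.

Let `p` be a prime and `S` a finite set of primes not containing `p`. The theorem: there are one
degree `M = 2 ^ e * ∏ q`, the product being over the odd primes of `S` and `e = 0` if `2` is not in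
`S`, and Tate characters `c n` of degree `M` (so lines in the cohomology of Fermat varieties of
degree `M` in characteristic `p`), one for each number `n` in the finite set `unsettled p S`, such
that for ALL finite fields `k` of characteristic `p`, ALL `m` dividing `q - 1` with prime divisors in
`S` and all `i` the following holds. For every tensor product of `2 i` lines which is of Tate type
(`TateLines`) the exponents become, after raising `m` to a multiple prime to `p` and after adding
Frobenius pairs `{b, -p b}`, a member of the closure of the characters of Fermat surfaces, the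
standard characters of Aoki and the multiples of the `c n` (`ReducedLines`). The generators other
than the `c n` have algebraic Tate classes (Tate, Shioda and Katsura, Aoki). So Parshin's conjecture
for the infinitely many varieties, of unbounded dimensions, which are dominated by products of curves
`y ^ q - y = x ^ m` of this kind follows from the algebraicity of the finitely many lines `c n` of
Fermat varieties of the one degree `M`; there are at most `2 ^ r - 1` of them, where `r` is the number
of the odd primes in `S`.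

There are no exceptions `n`, hence Parshin's conjecture for all these products, if `p` generates a
subgroup of index dividing four of the units modulo an odd prime `l` and the primes of `S` are `2`
and `l` (and `3` if `l` is congruent to `5` modulo `8` or to `7` modulo `12`, or if `l` is congruent
to `11` modulo `12` and `p` to `2` modulo `3`), and, for every `p`, if `S` is contained in
`{2, 3, 5}`, `{2, 3, 7}`, or in `{2, l}` with a prime `l` congruent to `7` modulo `8`. (For
`S = {l}` with an odd prime `l` one of the conditions on `n = l` always holds.)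

The proof combines the theorems for Fermat varieties of `Pool.Agent.J4.H6.FR.Fin` (reduction to
finitely many classes) and `Pool.Agent.J4.H6.SI.Fin` (index four), in which the sum of the exponents
is zero, with the passage from Gauss sums to Jacobi sums of `Pool.Agent.J4.H5.AS`: by Stickelberger's
theorem the sum of the exponents, which need not be zero, can be corrected by
Frobenius pairs.
-/

set_option autoImplicit false

namespace Pool.Agent.J4.H28.PS.Result

open Pool.Agent Pool.Agent.H916T

/-- The exponent of two in the order of `p` modulo `q`. -/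
noncomputable def twoPart (p q : ℕ) : ℕ := padicValNat 2 (orderOf (p : ZMod q))

/-- The prime divisors `q` of `n` are congruent to one modulo four, `p` and the odd primes `j` in `S`
not dividing `n` are squares modulo them, for each such `j` the exponent of two in the order of `p`
modulo `j` is at most that for some `q`, and, if two is in `S`, two has odd order modulo all odd primes
in `S`. -/
def SquareSettled (p : ℕ) (S : Finset ℕ) (n : ℕ) : Prop :=
  (∀ q : ℕ, q.Prime → q ∣ n → q % 4 = 1 ∧ IsSquare (p : ZMod q)) ∧
    (∀ j ∈ S, j ≠ 2 → ¬ j ∣ n → (∀ q : ℕ, q.Prime → q ∣ n → IsSquare (j : ZMod q)) ∧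
      ∃ q : ℕ, q.Prime ∧ q ∣ n ∧ twoPart p j ≤ twoPart p q) ∧
    (2 ∈ S → ∀ j ∈ S, j ≠ 2 → Odd (orderOf (2 : ZMod j)))

/-- `n` is congruent to three modulo four, `p` and (if it is in `S`) two have Jacobi symbol one
modulo `n`, and the odd primes `j` in `S` not dividing `n` with Jacobi symbol `-1` modulo `n` are
congruent to three modulo four. -/
def JacobiSettled (p : ℕ) (S : Finset ℕ) (n : ℕ) : Prop :=
  n % 4 = 3 ∧ jacobiSym p n = 1 ∧ (2 ∈ S → jacobiSym 2 n = 1) ∧
    ∀ j ∈ S, j ≠ 2 → ¬ j ∣ n → jacobiSym j n = -1 → j % 4 = 3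

/-- The powers of `p` have index dividing four in the units modulo an odd prime `l`, and the primes
in `S` are `2` or `l`, or `3` if `l % 8 = 5`, or `l % 12 = 7`, or `l % 12 = 11` and `p % 3 = 2`. -/
def IndexFour (p : ℕ) (S : Finset ℕ) : Prop :=
  ∃ l : ℕ, l.Prime ∧ l ≠ 2 ∧ (l - 1) ∣ 4 * orderOf (p : ZMod l) ∧
    ∀ r ∈ S, r = 2 ∨ r = l ∨ (r = 3 ∧ (l % 8 = 5 ∨ l % 12 = 7 ∨ (l % 12 = 11 ∧ p % 3 = 2)))

/-- The set `S` is contained in `{2, 3, 5}`, in `{2, 3, 7}`, or in `{2, l}` for a prime `l` congruent
to seven modulo eight. -/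
def SmallSet (S : Finset ℕ) : Prop :=
  S ⊆ {2, 3, 5} ∨ S ⊆ {2, 3, 7} ∨ ∃ l : ℕ, l.Prime ∧ l % 8 = 7 ∧ S ⊆ {2, l}

open scoped Classical in
/-- The squarefree odd numbers `n > 1` with prime divisors in `S` for which `-1` is not a power of `p`
modulo `n` and none of the four conditions holds. -/
noncomputable def unsettled (p : ℕ) (S : Finset ℕ) : Finset ℕ :=
  (∏ q ∈ S.erase 2, q).divisors.filter fun n => 1 < n ∧ ¬ (∃ k : ℕ, (p : ZMod n) ^ k = -1) ∧
    ¬ JacobiSettled p S n ∧ ¬ SquareSettled p S n ∧ ¬ IndexFour p S ∧ ¬ SmallSet S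

/-- The lines of `h^1` of the curve `y ^ q - y = x ^ m`: pairs of a nonzero exponent `a` and a
nontrivial additive character `ψ`. -/
abbrev Line (k : Type) [Field k] (m : ℕ) : Type :=
  {a : ZMod m // a ≠ 0} × {ψ : AddChar k ℂ // ψ ≠ 1}

/-- The Gauss sum `g(θ ^ a, ψ)` of a line. -/
noncomputable def gauss {k : Type} [Field k] [Fintype k] {m : ℕ} (θ : MulChar k ℂ)
    (x : Line k m) : ℂ := gaussSum (θ ^ x.1.1.val) x.2.1

/-- The tensor product of the `2 i` lines is of Tate type over some finite field: some power of the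
product of the Gauss sums is the same power of `q ^ i`. -/
def TateLines {k : Type} [Field k] [Fintype k] {m : ℕ} (θ : MulChar k ℂ) {i : ℕ}
    (x : Fin (2 * i) → Line k m) : Prop :=
  ∃ e : ℕ, 0 < e ∧ (∏ j, gauss θ (x j)) ^ e = ((Fintype.card k : ℂ) ^ i) ^ e

/-- After raising `m` to a multiple `K * m`, `K` prime to `p`, and adding pairs `{b, -p b}` the
exponents form a member of the closure of the characters of surfaces, of the standard characters of
Aoki and of the multiples of the given characters `c n` of degree `M`, `n ∈ U`. -/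
def ReducedLines {k : Type} [Field k] {m M : ℕ} (p : ℕ) (U : Finset ℕ)
    (c : ℕ → Multiset (ZMod M)) {i : ℕ} (x : Fin (2 * i) → Line k m) : Prop :=
  ∃ K : ℕ, 0 < K ∧ p.Coprime K ∧ ∃ t : Multiset (ZMod (K * m)), (0 : ZMod (K * m)) ∉ t ∧
    Generated (K * m)
      (fun t => SurfaceTate p (K * m) t ∨ (∃ q : ℕ, q.Prime ∧ q ∣ K * m ∧ Standard q (K * m) t) ∨
        ∃ n ∈ U, M ∣ K * m ∧ t = (c n).map fun a => ((K * m / M * a.val : ℕ) : ZMod (K * m)))
      ((Finset.univ.val.map fun j => (x j).1.1).map
          (fun a => ((K * a.val : ℕ) : ZMod (K * m))) +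
        (t + t.map fun b => -((p : ZMod (K * m)) * b)))

lemma settled_of {p : ℕ} {S : Finset ℕ} (hS : ∀ q ∈ S, q.Prime) {n : ℕ}
    (h : (∃ k : ℕ, (p : ZMod n) ^ k = -1) ∨ JacobiSettled p S n ∨ SquareSettled p S n) :
    J4.H6.FR.Settled False p (J4.H6.FR.blv S) n := by
  have hlv := J4.H6.FR.lv_blv hS
  rcases h with ⟨k, hk⟩ | ⟨ha, hb, hc, hd⟩ | ⟨ha, hb, hc⟩
  · refine Or.inl ⟨k, ?_⟩
    rw [← ZMod.natCast_eq_zero_iff]
    push_cast
    rw [hk]; ring
  · exact Or.inr (Or.inl ⟨ha, hb, fun h => hc (hlv.2 2 Nat.prime_two h),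
      fun j hj hjb hj2 => hd j (hlv.2 j hj hjb) hj2⟩)
  · have hv : ∀ q : ℕ, TH540.vv p q = twoPart p q := fun q =>
      Nat.factorization_def _ Nat.prime_two
    have hne2 : ∀ j : ℕ, Odd j → j ≠ 2 := by
      rintro j hj rfl
      exact absurd hj (by decide)
    refine Or.inr (Or.inr (Or.inr ⟨ha, ?_, ?_⟩))
    · intro j hj hjo hjb hjn
      obtain ⟨h5, q, hq, hqn, h6⟩ := hb j (hlv.2 j hj hjb) (hne2 j hjo) hjn
      exact ⟨h5, q, hq, hqn, by rw [hv, hv]; exact h6⟩
    · intro h j hj hjo hjb
      exact hc (hlv.2 2 Nat.prime_two (Dvd.dvd.trans (by norm_num) h)) j (hlv.2 j hj hjb)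
        (hne2 j hjo)

/-- **Products of Artin-Schreier curves: reduction to finitely many classes.** -/
theorem result (p : ℕ) [Fact p.Prime] (S : Finset ℕ) (hS : ∀ q ∈ S, q.Prime) (hpS : p ∉ S) :
    ∃ (M : ℕ) (c : ℕ → Multiset (ZMod M)),
      (∃ e : ℕ, M = 2 ^ e * ∏ q ∈ S.erase 2, q ∧ (2 ∉ S → e = 0)) ∧
      (∀ n ∈ unsettled p S, IsTate p M (c n)) ∧
      ∀ (k : Type) [Field k] [Fintype k] [CharP k p] (m : ℕ) [NeZero m],
        m ∣ Fintype.card k - 1 → (∀ q : ℕ, q.Prime → q ∣ m → q ∈ S) →
        ∀ θ : MulChar k ℂ, orderOf θ = m → ∀ (i : ℕ), 0 < i → ∀ x : Fin (2 * i) → Line k m,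
          TateLines θ x → ReducedLines p (unsettled p S) c x := by
  classical
  have hp : p.Prime := Fact.out
  obtain ⟨e, c, he, hc, H⟩ := J4.H28.PS.finite_reduction False hp hS hpS
  refine ⟨_, c, ⟨e, rfl, he⟩, fun n _ => hc n, ?_⟩
  intro k _ _ _ m _ hmk hmS θ hθ i hi x hx
  have hm : 0 < m := Nat.pos_of_ne_zero (NeZero.ne m)
  obtain ⟨hpm, h0, hev, hne, hrel⟩ := J4.H28.PS.rel_lines hmk θ hθ hi x hx
  have weak : J4.H5.AS.Gen2 p m (Finset.univ.val.map fun j => (x j).1.1) →
      ReducedLines p (unsettled p S) c x := by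
    rintro ⟨K, hK, hpK, t, ht0, hg⟩
    refine ⟨K, hK, hpK, t, ht0, H916Z.generated_mono ?_ hg⟩
    rintro t (h | h)
    · exact Or.inl h
    · exact Or.inr (Or.inl h)
  by_cases hI : IndexFour p S
  · obtain ⟨l, hl, hl2, hidx, hlS⟩ := hI
    exact weak (J4.H28.PS.small_index hmk θ hθ hi hl hl2 hidx
      (fun r hr hrm => hlS r (hmS r hr hrm)) x hx)
  by_cases hT : SmallSet S
  · refine weak (J4.H5.AS.gen2_of hp hm hpm h0 hev hne hrel ?_)
    intro M hM hpM _ hpr s' hs' hne' _
    rcases hT with h | h | ⟨l, hl, hl7, h⟩
    · exact H916Y.all235 hp hM hpM (fun r hr hrM => by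
        have := h (hmS r hr (hpr r hr hrM)); simpa using this) hs' hne'
    · exact H916Y.all237 hp hM hpM (fun r hr hrM => by
        have := h (hmS r hr (hpr r hr hrM)); simpa using this) hs' hne'
    · exact H916Y.allq7 hp hM hpM hl hl7 (fun r hr hrM => by
        have := h (hmS r hr (hpr r hr hrM)); simpa using this) hs' hne'
  obtain ⟨N, hN, hpN, hMN, t, ht0, hg⟩ := H m hm hpm hmS _ h0 hev hne hrel
  refine ⟨N, hN, hpN, t, ht0, H916Z.generated_mono ?_ hg⟩
  rintro t (h | h | ⟨h, -⟩ | ⟨n, hn, h⟩)
  · exact Or.inl h
  · exact Or.inr (Or.inl h)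
  · exact h.elim
  · refine Or.inr (Or.inr ⟨n, ?_, hMN, h⟩)
    unfold J4.H6.FR.Uns at hn
    unfold unsettled
    rw [Finset.mem_filter] at hn ⊢
    exact ⟨hn.1, hn.2.1, fun h' => hn.2.2 (settled_of hS (Or.inl h')),
      fun h' => hn.2.2 (settled_of hS (Or.inr (Or.inl h'))),
      fun h' => hn.2.2 (settled_of hS (Or.inr (Or.inr h'))), hI, hT⟩

end Pool.Agent.J4.H28.PS.Result
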